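import Pool.Agent.Q12.OmegaAlg

/-!
For every infinite (in particular every algebraically closed) field `k` and every signature `Ω` with
an operation of arity at least two there are a finite-dimensional prime `Ω`-algebra `A` and a
finite-dimensional `Ω`-algebra `A'` with `A ∈ var(A')` such that `A` is not isomorphic to a section
of `A'`.
-/

namespace Pool.Agent.Results.MP_2fa119_al.PrimeNotSection

open Q12.Omega Polynomial

universe u v w

section defs

variable {Ω : ℕ → Type v} {k : Type u} {A : Type w} [CommRing k] [AddCommGroup A] [Module k A]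

/-- `f` is multilinear in the variables `x_0, ..., x_{d-1}`: every monomial of `f` contains each
of them exactly once and no other variable. -/
def IsMultilinear (d : ℕ) (f : Monom Ω →₀ k) : Prop :=
  ∀ t ∈ f.support, ∀ i : ℕ, t.count i = if i < d then 1 else 0

/-- The product `S T` of two subsets of `A`: the span of all `f(s, t, a_1, ..., a_l)` with `f`
multilinear, `s ∈ S`, `t ∈ T`, `a_j ∈ A`. -/
def setProd (op : Ops Ω k A) (S T : Set A) : Submodule k A :=
  Submodule.span k {y | ∃ (d : ℕ) (f : Monom Ω →₀ k) (a : ℕ → A), 2 ≤ d ∧ IsMultilinear d f ∧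
    a 0 ∈ S ∧ a 1 ∈ T ∧ y = evalPoly op a f}

/-- `A` is prime: `I J ≠ 0` for all nonzero ideals `I`, `J` of `A`. -/
def IsPrimeAlg (op : Ops Ω k A) : Prop :=
  ∀ I J : Submodule k A, IsIdealOf op ⊤ I → IsIdealOf op ⊤ J → I ≠ ⊥ → J ≠ ⊥ →
    setProd op (I : Set A) (J : Set A) ≠ ⊥

/-- `A` belongs to the variety generated by `A'`: it satisfies every identity of `A'`. -/
def InVar {A' : Type*} [AddCommGroup A'] [Module k A'] (op : Ops Ω k A) (op' : Ops Ω k A') :
    Prop :=
  ∀ f : Monom Ω →₀ k, IsIdentity op' f → IsIdentity op f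

/-- `A` is isomorphic to a section `R / I` of `A'`, where `R` is a subalgebra of `A'` and `I` is an
ideal of `R`: there is a linear isomorphism `e : R / I → A` that carries the induced operations
of `R / I` to those of `A`. -/
def IsoSection {A' : Type*} [AddCommGroup A'] [Module k A'] (op : Ops Ω k A)
    (op' : Ops Ω k A') : Prop :=
  ∃ (R I : Submodule k A') (hR : IsSubalgebra op' R), IsIdealOf op' R I ∧
    ∃ e : (R ⧸ I.submoduleOf R) ≃ₗ[k] A, ∀ (n : ℕ) (ω : Ω n) (a : Fin n → R),
      e (Submodule.Quotient.mk ⟨op' n ω (fun i => a i), hR n ω _ (fun i => (a i).2)⟩) =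
        op n ω (fun i => e (Submodule.Quotient.mk (a i)))

end defs

section proof

variable {k : Type u} [Field k]

/-- the algebra of 2 x 2 matrices -/
abbrev M (k : Type u) : Type u := Matrix (Fin 2) (Fin 2) k

/-- all operations act as `u x_1 ... x_n` -/
def opU (Ω : ℕ → Type v) (u : M k) : Ops Ω k (M k) := fun n _ =>
  (LinearMap.mulLeft k u).compMultilinearMap (MultilinearMap.mkPiAlgebraFin k n (M k))

theorem opU_apply (Ω : ℕ → Type v) (u : M k) (n : ℕ) (ω : Ω n) (a : Fin n → M k) :
    opU Ω u n ω a = u * (List.ofFn a).prod := by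
  simp [opU, MultilinearMap.mkPiAlgebraFin_apply]

/-- the unipotent element `1 + c e_12` -/
def uni (c : k) : M k := !![1, c; 0, 1]

theorem polyval (Ω : ℕ → Type v) (a : ℕ → M k) (t : Monom Ω) :
    ∃ P : Matrix (Fin 2) (Fin 2) k[X], ∀ c : k, (evalRingHom c).mapMatrix P =
      t.eval (opU Ω (uni c)) a := by
  induction t with
  | var i =>
    refine ⟨(C : k →+* k[X]).mapMatrix (a i), fun c => ?_⟩
    ext p q
    simp [Monom.eval]
  | app n ω t ih =>
    choose P hP using ih
    refine ⟨!![1, X; 0, 1] * (List.ofFn P).prod, fun c => ?_⟩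
    rw [map_mul, map_list_prod, Monom.eval, opU_apply]
    congr 1
    · ext p q
      fin_cases p <;> fin_cases q <;> simp [uni]
    · rw [List.map_ofFn]
      congr 2
      funext l
      exact hP l c

theorem polyval' (Ω : ℕ → Type v) (a : ℕ → M k) (f : Monom Ω →₀ k) :
    ∃ P : Matrix (Fin 2) (Fin 2) k[X], ∀ c : k, (evalRingHom c).mapMatrix P =
      evalPoly (opU Ω (uni c)) a f := by
  choose P hP using fun t => polyval Ω a t
  refine ⟨f.sum fun t x => (C x : k[X]) • P t, fun c => ?_⟩
  unfold evalPoly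
  rw [map_finsuppSum]
  refine Finsupp.sum_congr fun t _ => ?_
  rw [← hP t c]
  ext p q
  simp

/-- conjugation by `diag(c, 1)` -/
def conjC (c : k) (hc : c ≠ 0) : M k →+* M k where
  toFun x := !![c, 0; 0, 1] * x * !![c⁻¹, 0; 0, 1]
  map_one' := by
    ext p q
    fin_cases p <;> fin_cases q <;> simp [hc]
  map_mul' x y := by
    have h : (!![c⁻¹, 0; 0, 1] * !![c, 0; 0, 1] : M k) = 1 := by
      ext p q
      fin_cases p <;> fin_cases q <;> simp [hc]
    calc !![c, 0; 0, 1] * (x * y) * !![c⁻¹, 0; 0, 1]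
        = !![c, 0; 0, 1] * (x * 1 * y) * !![c⁻¹, 0; 0, 1] := by rw [mul_one]
      _ = !![c, 0; 0, 1] * x * !![c⁻¹, 0; 0, 1] * (!![c, 0; 0, 1] * y * !![c⁻¹, 0; 0, 1]) := by
        rw [← h]; simp only [mul_assoc]
  map_zero' := by rw [mul_zero, zero_mul]
  map_add' x y := by rw [mul_add, add_mul]

theorem conjC_uni (c : k) (hc : c ≠ 0) : conjC c hc (uni 1) = uni c := by
  change !![c, 0; 0, 1] * uni 1 * !![c⁻¹, 0; 0, 1] = uni c
  ext p q
  fin_cases p <;> fin_cases q <;> simp [uni, hc]

theorem conjC_surj (c : k) (hc : c ≠ 0) : Function.Surjective (conjC c hc) := by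
  intro y
  refine ⟨!![c⁻¹, 0; 0, 1] * y * !![c, 0; 0, 1], ?_⟩
  change !![c, 0; 0, 1] * (!![c⁻¹, 0; 0, 1] * y * !![c, 0; 0, 1]) * !![c⁻¹, 0; 0, 1] = y
  have h : (!![c, 0; 0, 1] * !![c⁻¹, 0; 0, 1] : M k) = 1 := by
    ext p q
    fin_cases p <;> fin_cases q <;> simp [hc]
  calc !![c, 0; 0, 1] * (!![c⁻¹, 0; 0, 1] * y * !![c, 0; 0, 1]) * !![c⁻¹, 0; 0, 1]
      = (!![c, 0; 0, 1] * !![c⁻¹, 0; 0, 1]) * y * (!![c, 0; 0, 1] * !![c⁻¹, 0; 0, 1]) := by
        simp only [mul_assoc]
    _ = y := by rw [h, one_mul, mul_one]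

/-- conjugation as a linear map -/
def conjL (c : k) (hc : c ≠ 0) : M k →ₗ[k] M k where
  toFun x := conjC c hc x
  map_add' x y := map_add _ x y
  map_smul' r x := by
    change !![c, 0; 0, 1] * (r • x) * !![c⁻¹, 0; 0, 1] =
      r • (!![c, 0; 0, 1] * x * !![c⁻¹, 0; 0, 1])
    rw [Matrix.mul_smul, Matrix.smul_mul]

theorem identity_transfer (Ω : ℕ → Type v) (c : k) (hc : c ≠ 0) (f : Monom Ω →₀ k)
    (hf : IsIdentity (opU Ω (uni (1 : k))) f) : IsIdentity (opU Ω (uni c)) f := by
  refine isIdentity_of_surj (conjL c hc) (fun n ω a => ?_) (conjC_surj c hc) hf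
  rw [opU_apply, opU_apply]
  change conjC c hc (uni 1 * (List.ofFn a).prod) = _
  rw [map_mul, conjC_uni, map_list_prod, List.map_ofFn]
  rfl

theorem inVar [Infinite k] (Ω : ℕ → Type v) :
    InVar (opU Ω (1 : M k)) (opU Ω (uni (1 : k))) := by
  intro f hf a
  obtain ⟨P, hP⟩ := polyval' Ω a f
  have h0 : P = 0 := by
    ext1 p q
    refine Polynomial.eq_zero_of_infinite_isRoot _ ?_
    refine ((Set.finite_singleton (0 : k)).infinite_compl).mono ?_
    intro c hc
    have h1 := hP c
    rw [identity_transfer Ω c hc f hf a] at h1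
    have h2 := congrArg (fun N : M k => N p q) h1
    simpa [Polynomial.IsRoot.def] using h2
  have h3 := hP 0
  rw [h0, map_zero] at h3
  have h4 : uni (0 : k) = 1 := by
    ext p q
    fin_cases p <;> fin_cases q <;> simp [uni]
  rw [h4] at h3
  exact h3.symm

/-- argument tuples `(p, q, c, ..., c)` -/
def tup {α : Type*} (m : ℕ) (p q c : α) : Fin (m + 2) → α := Fin.cons p (Fin.cons q fun _ => c)

theorem tup_map {α β : Type*} (g : α → β) (m : ℕ) (p q c : α) :
    (fun i => g (tup m p q c i)) = tup m (g p) (g q) (g c) := by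
  funext i
  refine Fin.cases rfl (fun i => ?_) i
  refine Fin.cases rfl (fun i => rfl) i

theorem tup_prod (m : ℕ) (p q c : M k) : (List.ofFn (tup m p q c)).prod = p * (q * c ^ m) := by
  simp [tup, List.ofFn_succ]

theorem isPrime (Ω : ℕ → Type v) (m : ℕ) (ω : Ω (m + 2)) : IsPrimeAlg (opU Ω (1 : M k)) := by
  have key : ∀ I : Submodule k (M k), IsIdealOf (opU Ω (1 : M k)) ⊤ I → I ≠ ⊥ → (1 : M k) ∈ I := by
    intro I hI hne
    obtain ⟨x, hx, hx0⟩ := Submodule.exists_mem_ne_zero_of_ne_bot hne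
    have hmul : ∀ y z : M k, (y ∈ I ∨ z ∈ I) → y * z ∈ I := by
      intro y z h
      have h1 := hI.2 (m + 2) ω (tup m y z 1) (fun _ => trivial) (by
        rcases h with h | h
        · exact ⟨0, h⟩
        · exact ⟨1, h⟩)
      rw [opU_apply, tup_prod] at h1
      simpa using h1
    obtain ⟨p, q, hpq⟩ : ∃ p q, x p q ≠ 0 := by
      by_contra hcon
      push Not at hcon
      exact hx0 (Matrix.ext fun p q => hcon p q)
    have hs : ∀ i, Matrix.single i i (1 : k) ∈ I := by
      intro i
      have h1 : Matrix.single i p (1 : k) * x * Matrix.single q i (1 : k) ∈ I :=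
        hmul _ _ (Or.inl (hmul _ _ (Or.inr hx)))
      have h2 : Matrix.single i p (1 : k) * x * Matrix.single q i (1 : k) =
          (x p q) • Matrix.single i i (1 : k) := by
        rw [Matrix.single_mul_mul_single]
        simp
      rw [h2] at h1
      have h3 := I.smul_mem (x p q)⁻¹ h1
      rwa [smul_smul, inv_mul_cancel₀ hpq, one_smul] at h3
    have h4 : (1 : M k) = Matrix.single 0 0 1 + Matrix.single 1 1 1 := by
      ext p q
      fin_cases p <;> fin_cases q <;> simp
    rw [h4]
    exact I.add_mem (hs 0) (hs 1)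
  intro I J hI hJ hI0 hJ0
  have h1 := key I hI hI0
  have h2 := key J hJ hJ0
  let f : Monom Ω →₀ k := Finsupp.single (Monom.app (m + 2) ω fun i => Monom.var i) 1
  have hf : IsMultilinear (m + 2) f := by
    intro t ht i
    have ht' : t = Monom.app (m + 2) ω fun i => Monom.var i := by
      have := Finsupp.support_single_subset ht
      simpa using this
    rw [ht']
    simp only [Monom.count]
    by_cases hi : i < m + 2
    · rw [if_pos hi, Finset.sum_eq_single ⟨i, hi⟩]
      · simp
      · intro l _ hl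
        rw [if_neg]
        intro h
        exact hl (Fin.ext h)
      · intro h
        exact absurd (Finset.mem_univ _) h
    · rw [if_neg hi]
      refine Finset.sum_eq_zero fun l _ => ?_
      rw [if_neg]
      intro h
      exact hi (h ▸ l.2)
  have hv : evalPoly (opU Ω (1 : M k)) (fun _ => 1) f = 1 := by
    unfold evalPoly
    rw [Finsupp.sum_single_index (by simp)]
    simp only [Monom.eval, opU_apply]
    simp
  intro hbot
  have h3 : (1 : M k) ∈ setProd (opU Ω (1 : M k)) (I : Set (M k)) (J : Set (M k)) :=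
    Submodule.subset_span ⟨m + 2, f, fun _ => 1, by omega, hf, h1, h2, hv.symm⟩
  rw [hbot, Submodule.mem_bot] at h3
  exact one_ne_zero h3

theorem notSection (Ω : ℕ → Type v) (m : ℕ) (ω : Ω (m + 2)) :
    ¬ IsoSection (opU Ω (1 : M k)) (opU Ω (uni (1 : k))) := by
  rintro ⟨R, I, hR, -, e, he⟩
  have h1 := e.finrank_eq
  have h2 := Submodule.finrank_quotient_add_finrank (I.submoduleOf R)
  have h3 := R.finrank_le
  have hRtop : R = ⊤ := Submodule.eq_top_of_finrank_eq (by omega)
  have hIbot : I.submoduleOf R = ⊥ := by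
    rw [← Submodule.finrank_eq_zero (R := k)]
    omega
  subst hRtop
  let ψ : M k → M k := fun x => e (Submodule.Quotient.mk ⟨x, trivial⟩)
  have hinj : Function.Injective ψ := by
    intro x y hxy
    have h4 := e.injective hxy
    rw [Submodule.Quotient.eq, hIbot, Submodule.mem_bot] at h4
    have h5 := congrArg Subtype.val h4
    exact sub_eq_zero.1 h5
  have hhom : ∀ a : Fin (m + 2) → M k, ψ (opU Ω (uni (1 : k)) (m + 2) ω a) =
      opU Ω (1 : M k) (m + 2) ω (fun i => ψ (a i)) :=
    fun a => he (m + 2) ω (fun i => ⟨a i, trivial⟩)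
  have h6 : ∀ p q c : M k, ψ (uni 1 * (p * (q * c ^ m))) = ψ p * (ψ q * ψ c ^ m) := by
    intro p q c
    have h7 := hhom (tup m p q c)
    rw [opU_apply, opU_apply, tup_map, tup_prod, tup_prod, one_mul] at h7
    exact h7
  let x : M k := !![1, 0; 0, 0]
  have h8 : ψ (uni 1 * ((uni 1 * (x * (1 * 1 ^ m))) * (1 * 1 ^ m))) =
      ψ (uni 1 * (x * ((uni 1 * (1 * (1 * 1 ^ m))) * 1 ^ m))) := by
    rw [h6, h6, h6, h6]
    have hc : Commute (ψ 1) (ψ 1 ^ m) := (Commute.refl _).pow_right m
    simp only [mul_assoc]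
    congr 1
    rw [← mul_assoc (ψ 1 ^ m) (ψ 1) (ψ 1 ^ m), ← hc.eq, mul_assoc]
  have h9 := hinj h8
  have h10 := congrArg (fun N : M k => N 0 1) h9
  simp [uni, x, Matrix.mul_apply, Fin.sum_univ_two] at h10

end proof

/-- For every infinite field `k` (in particular every algebraically closed one) and every signature
`Ω` with an operation of arity at least `2`, there are a finite-dimensional prime `Ω`-algebra `A`
and a finite-dimensional `Ω`-algebra `A'` with `A ∈ var(A')` such that `A` is not isomorphic to any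
section of `A'`. -/
theorem result (k : Type u) [Field k] [Infinite k] (Ω : ℕ → Type v)
    (hΩ : ∃ n ≥ 2, Nonempty (Ω n)) :
    ∃ (A A' : Type u) (_ : AddCommGroup A) (_ : Module k A) (_ : AddCommGroup A')
      (_ : Module k A') (op : Ops Ω k A) (op' : Ops Ω k A'),
      FiniteDimensional k A ∧ FiniteDimensional k A' ∧ IsPrimeAlg op ∧ InVar op op' ∧
      ¬ IsoSection op op' := by
  obtain ⟨n, hn, ⟨ω⟩⟩ := hΩ
  obtain ⟨m, rfl⟩ : ∃ m, n = m + 2 := ⟨n - 2, by omega⟩
  exact ⟨M k, M k, inferInstance, inferInstance, inferInstance, inferInstance,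
    opU Ω 1, opU Ω (uni 1), inferInstance, inferInstance, isPrime Ω m ω, inVar Ω,
    notSection Ω m ω⟩

end Pool.Agent.Results.MP_2fa119_al.PrimeNotSection
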